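import Mathlib
import Pool.Agent.H2Z.PozC

set_option autoImplicit false

namespace Pool.Agent.Results.MP_2df8e9_al.OddEmbedding

universe u

/-- Indices are `0, ..., n` in Lean, so the basis vector `Pi.single i 1` is `e_{i+1}` and
`i.succAbove` lists the other indices in increasing order. -/
theorem result (F : Type u) [Field F] [IsAlgClosed F] [CharZero F] (n : ℕ) (hn3 : 3 ≤ n)
    (hn : Odd n) :
    ∃ B : (Fin (n + 1) → F) [⋀^Fin n]→ₗ[F] (Fin (n + 1) → F),
      (∀ i : Fin (n + 1), B (fun k => Pi.single (i.succAbove k) 1) =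
        (-1 : F) ^ (n + ((i : ℕ) + 1) + 1) • (Pi.single i 1 : Fin (n + 1) → F)) ∧
      ∃ (A : Type u) (_ : Ring A) (_ : Algebra F A) (j : (Fin (n + 1) → F) →ₗ[F] A),
        Function.Injective j ∧ ∀ v : Fin n → Fin (n + 1) → F, j (B v) =
          ∑ σ : Equiv.Perm (Fin n), ((Equiv.Perm.sign σ : ℤˣ) : ℤ) •
            (List.ofFn fun k => j (v (σ k))).prod :=
  ⟨Pool.Agent.H2Z.Poz.br F n, Pool.Agent.H2Z.Poz.br_single F n,
    Pool.Agent.H2Z.Poz.main F n hn3 hn⟩

end Pool.Agent.Results.MP_2df8e9_al.OddEmbedding
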